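import Pool.Agent.H63.SB.T3
import Pool.Agent.H63.SB.Targets

/-!
# MP_bd4439_gt: module A1 (convexity)
-/

namespace Pool.Agent.H19.SB

open Set Filter Topology
open scoped RealInnerProductSpace
open Pool.Agent.H63.SB

/-- planar combinatorics for A1. -/
theorem conv_aux (DK DL : ℝ → ℝ → Prop) {α β : ℝ}
    (hKs : ∀ a b r : ℝ, 0 < r → DK a b → DK (r * a) (r * b))
    (hLs : ∀ a b r : ℝ, 0 < r → DL a b → DL (r * a) (r * b))
    (hK0 : ¬ DK 0 0)
    (hK10 : ¬ DK 1 0) (hK01 : ¬ DK 0 1) (hL10 : DL 1 0) (hL01 : DL 0 1) (hKn : DK (-1) 0)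
    (hx : DK α β) (hxn : ¬ DK (-α) (-β)) (hxL : DL (-α) (-β))
    (hFK : ∀ a b τ : ℝ, DK a b → 0 ≤ τ → (a + τ * α ≠ 0 ∨ b + τ * β ≠ 0) →
      DK (a + τ * α) (b + τ * β))
    (hFL : ∀ a b τ : ℝ, DL a b → 0 ≤ τ → (a - τ * α ≠ 0 ∨ b - τ * β ≠ 0) →
      DL (a - τ * α) (b - τ * β))
    {s t : ℝ} (hs : 0 < s) (ht : 0 < t) : DL s t ∧ ¬ DK s t := by
  have hKp0 : ∀ r : ℝ, 0 < r → ¬ DK r 0 := by
    intro r hr h
    have := hKs _ _ r⁻¹ (inv_pos.mpr hr) h
    rw [inv_mul_cancel₀ hr.ne', mul_zero] at this
    exact hK10 this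
  have hK0p : ∀ r : ℝ, 0 < r → ¬ DK 0 r := by
    intro r hr h
    have := hKs _ _ r⁻¹ (inv_pos.mpr hr) h
    rw [inv_mul_cancel₀ hr.ne', mul_zero] at this
    exact hK01 this
  -- `α < 0` or `β < 0`
  have hneg : α < 0 ∨ β < 0 := by
    by_contra hcon
    push Not at hcon
    obtain ⟨ha, hb⟩ := hcon
    rcases ha.lt_or_eq with ha | ha
    · rcases hb.lt_or_eq with hb | hb
      · have h1 := hFK (-1) 0 (1 / α) hKn (by positivity) (Or.inr (by positivity))
        have h2 : (-1 : ℝ) + 1 / α * α = 0 := by field_simp; ring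
        rw [h2] at h1
        exact hK0p _ (by positivity) h1
      · rw [← hb] at hx
        exact hKp0 _ ha hx
    · rw [← ha] at hx
      rcases hb.lt_or_eq with hb | hb
      · exact hK0p _ hb hx
      · rw [← hb] at hx
        exact hK0 hx
  constructor
  · -- `L`
    have P1 : α < 0 → 0 < t - s * β / α → DL s t := by
      intro hα hr
      have hα0 : α ≠ 0 := hα.ne
      obtain ⟨r, hrd⟩ : ∃ r : ℝ, r = t - s * β / α := ⟨_, rfl⟩
      rw [← hrd] at hr
      have hr0 : r ≠ 0 := hr.ne'
      have h1 := hFL 0 1 (s / (-α) / r) hL01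
        (div_nonneg (div_nonneg hs.le (by linarith)) hr.le) (Or.inl (by
          rw [zero_sub]
          exact neg_ne_zero.mpr (mul_ne_zero (div_ne_zero (div_ne_zero hs.ne' (by linarith)) hr.ne')
            hα.ne)))
      have h2 := hLs _ _ _ hr h1
      have h3 : r * (0 - s / (-α) / r * α) = s := by field_simp; ring
      have h4 : r * (1 - s / (-α) / r * β) = t := by
        have : r * (1 - s / (-α) / r * β) = r + s * β / α := by field_simp; ring
        rw [this, hrd]; ring
      rwa [h3, h4] at h2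
    have P2 : β < 0 → 0 < s - t * α / β → DL s t := by
      intro hβ hr
      have hβ0 : β ≠ 0 := hβ.ne
      obtain ⟨r, hrd⟩ : ∃ r : ℝ, r = s - t * α / β := ⟨_, rfl⟩
      rw [← hrd] at hr
      have hr0 : r ≠ 0 := hr.ne'
      have h1 := hFL 1 0 (t / (-β) / r) hL10
        (div_nonneg (div_nonneg ht.le (by linarith)) hr.le) (Or.inr (by
          rw [zero_sub]
          exact neg_ne_zero.mpr (mul_ne_zero (div_ne_zero (div_ne_zero ht.ne' (by linarith)) hr.ne')
            hβ.ne)))
      have h2 := hLs _ _ _ hr h1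
      have h3 : r * (0 - t / (-β) / r * β) = t := by field_simp; ring
      have h4 : r * (1 - t / (-β) / r * α) = s := by
        have : r * (1 - t / (-β) / r * α) = r + t * α / β := by field_simp; ring
        rw [this, hrd]; ring
      rwa [h3, h4] at h2
    by_cases hα : α < 0
    · have hα0 : α ≠ 0 := hα.ne
      by_cases hβ : β < 0
      · rcases lt_trichotomy (s * β) (t * α) with h | h | h
        · -- `s β < t α` : `s β / α > t`, so `s - t α / β > 0`
          apply P2 hβ
          have : t * α / β < s := by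
            rw [div_lt_iff_of_neg hβ]; exact h
          linarith
        · have h1 := hLs _ _ (s / (-α)) (div_pos hs (by linarith)) hxL
          convert h1 using 1
          · field_simp
          · field_simp
            linarith
        · apply P1 hα
          have : s * β / α < t := by
            rw [div_lt_iff_of_neg hα]; exact h
          linarith
      · apply P1 hα
        have : s * β / α ≤ 0 := div_nonpos_of_nonneg_of_nonpos (mul_nonneg hs.le (by linarith)) hα.le
        linarith
    · have hβ : β < 0 := hneg.resolve_left hα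
      apply P2 hβ
      have : t * α / β ≤ 0 := div_nonpos_of_nonneg_of_nonpos (mul_nonneg ht.le (by linarith)) hβ.le
      linarith
  · -- `K`
    intro hst
    by_cases hβ : β < 0
    · have hβ0 : β ≠ 0 := hβ.ne
      have hτ : 0 < t / (-β) := div_pos ht (by linarith)
      have hz : t + t / (-β) * β = 0 := by field_simp; ring
      rcases lt_trichotomy (s + t / (-β) * α) 0 with h | h | h
      · have hα : α < 0 := by
          by_contra hα
          push Not at hα
          have : 0 ≤ t / (-β) * α := mul_nonneg hτ.le hα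
          linarith
        have hα0 : α ≠ 0 := hα.ne
        have h2 : 0 < t + s / (-α) * β := by
          have h3 : s < t / (-β) * (-α) := by linarith
          have h4 : s / (-α) < t / (-β) := by
            rw [div_lt_iff₀ (by linarith)]; exact h3
          have h5 : t / (-β) * β < s / (-α) * β := mul_lt_mul_of_neg_right h4 hβ
          linarith
        have h1 := hFK s t (s / (-α)) hst (div_nonneg hs.le (by linarith)) (Or.inr h2.ne')
        have h3 : s + s / (-α) * α = 0 := by field_simp; ring
        rw [h3] at h1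
        exact hK0p _ h2 h1
      · have h1 := hKs _ _ (t / (-β))⁻¹ (inv_pos.mpr hτ) hst
        apply hxn
        convert h1 using 1
        · have : s = -(t / (-β) * α) := by linarith
          rw [this]
          field_simp
        · field_simp
      · have h1 := hFK s t (t / (-β)) hst hτ.le (Or.inl h.ne')
        rw [hz] at h1
        exact hKp0 _ h h1
    · have hα : α < 0 := hneg.resolve_right hβ
      have hα0 : α ≠ 0 := hα.ne
      push Not at hβ
      have h2 : 0 < t + s / (-α) * β := by
        have : 0 ≤ s / (-α) * β := mul_nonneg (div_nonneg hs.le (by linarith)) hβ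
        linarith
      have h1 := hFK s t (s / (-α)) hst (div_nonneg hs.le (by linarith)) (Or.inr h2.ne')
      have h3 : s + s / (-α) * α = 0 := by field_simp; ring
      rw [h3] at h1
      exact hK0p _ h2 h1

variable {E : Type*} [NormedAddCommGroup E] [InnerProductSpace ℝ E]

/-- the data of a homothetic section through `q ∈ Dir L \ Dir K`. -/
theorem plane_data {K L : Set E} (hK : StarB K) (hL : StarB L) {S : Submodule ℝ E} {x : E} {l : ℝ}
    (h : Hom K L S x l) {q : E} (hqS : q ∈ S) (hq : q ∈ Dir L) (hq' : q ∉ Dir K) :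
    x ≠ 0 ∧ x ∈ Dir K ∧ -x ∉ Dir K ∧ -x ∈ Dir L ∧
    (∀ u ∈ Dir K, u ∈ S → ∀ t : ℝ, 0 ≤ t → u + t • x ≠ 0 → u + t • x ∈ Dir K) ∧
    (∀ u ∈ Dir L, u ∈ S → ∀ t : ℝ, 0 ≤ t → u - t • x ≠ 0 → u - t • x ∈ Dir L) := by
  have g := h.gHom hK hL
  have hqD : q ∈ Dir L ∩ (S : Set E) := ⟨hq, hqS⟩
  have hqD' : q ∉ Dir K ∩ (S : Set E) := fun hh => hq' hh.1
  have hx := g.ne_zero hK hL hqD hqD'
  refine ⟨hx, (g.x_mem hx).2.1, fun hh => g.neg_notMem hK hL hqD hqD' ⟨hh, S.neg_mem h.1⟩,
    (g.neg_mem hx).2.1, ?_, ?_⟩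
  · intro u hu huS t ht hne
    exact (g.add_mem hK hL ⟨hu, huS⟩ ht hne).1
  · intro u hu huS t ht hne
    exact (g.sub_mem hK hL ⟨hu, huS⟩ ht hne).1

theorem pair_ne_zero {u v : E} (hli : LinearIndependent ℝ ![u, v]) {a b : ℝ}
    (h : a ≠ 0 ∨ b ≠ 0) : a • u + b • v ≠ 0 := by
  intro h0
  have := LinearIndependent.pair_iff.mp hli a b h0
  rcases h with h | h
  · exact h this.1
  · exact h this.2

/-- dependent vectors. -/
theorem dep_smul {u v : E} (hu : u ≠ 0) (hli : ¬ LinearIndependent ℝ ![u, v]) :
    ∃ c : ℝ, v = c • u := by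
  rw [LinearIndependent.pair_iff' hu] at hli
  push Not at hli
  obtain ⟨a, ha⟩ := hli
  exact ⟨a, ha.symm⟩

/-- **A1.** -/
theorem conv : ConvStmt := by
  intro E _ _ _ K L hCA q hq hqK q' hq' hqK' s t hs ht
  have hK := hCA.hK
  have hL := hCA.hL
  have hqL : q ∈ Dir L := interior_subset hq
  have hq0 : q ≠ 0 := hqL.1
  have hnq : -q ∈ Dir K := hCA.neg q hq hqK
  by_cases hli : LinearIndependent ℝ ![q, q']
  · obtain ⟨_, _, x, l, hhom⟩ := hCA.good q hq hqK (Submodule.span ℝ {q, q'})
      (finrank_span_pair hli) (Submodule.subset_span (by simp))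
    have hqS : q ∈ Submodule.span ℝ {q, q'} := Submodule.subset_span (by simp)
    have hqS' : q' ∈ Submodule.span ℝ {q, q'} := Submodule.subset_span (by simp)
    obtain ⟨hx0, hxK, hxn, hxL, hFK, hFL⟩ := plane_data hK hL hhom hqS hqL hqK
    obtain ⟨α, β, hαβ⟩ := Submodule.mem_span_pair.mp hhom.1
    have hS : ∀ a b : ℝ, a • q + b • q' ∈ Submodule.span ℝ {q, q'} := fun a b =>
      Submodule.add_mem _ (Submodule.smul_mem _ _ hqS) (Submodule.smul_mem _ _ hqS')
    have hx' : ∀ a b τ : ℝ, a • q + b • q' + τ • x = (a + τ * α) • q + (b + τ * β) • q' := by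
      intro a b τ
      rw [← hαβ, smul_add, smul_smul, smul_smul, add_smul, add_smul]
      abel
    have hx'' : ∀ a b τ : ℝ, a • q + b • q' - τ • x = (a - τ * α) • q + (b - τ * β) • q' := by
      intro a b τ
      rw [← hαβ, smul_add, smul_smul, smul_smul, sub_smul, sub_smul]
      abel
    have hnx : (-α) • q + (-β) • q' = -x := by
      rw [← hαβ, neg_smul, neg_smul, neg_add]
    have hmul : ∀ a b r : ℝ, (r * a) • q + (r * b) • q' = r • (a • q + b • q') := by
      intro a b r
      rw [smul_add, smul_smul, smul_smul]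
    exact conv_aux (fun a b => a • q + b • q' ∈ Dir K) (fun a b => a • q + b • q' ∈ Dir L)
      (α := α) (β := β)
      (fun a b r hr h => by
        show _ ∈ Dir K
        rw [hmul]; exact (smul_mem_Dir hr).mpr h)
      (fun a b r hr h => by
        show _ ∈ Dir L
        rw [hmul]; exact (smul_mem_Dir hr).mpr h)
      (by simpa using zero_notMem_Dir)
      (by simpa using hqK) (by simpa using hqK') (by simpa using hqL) (by simpa using hq')
      (by simpa using hnq) (by simpa [hαβ] using hxK)
      (by simpa only [hnx] using hxn) (by simpa only [hnx] using hxL)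
      (fun a b τ h hτ hne => by
        show _ ∈ Dir K
        have h1 := hFK _ h (hS a b) τ hτ (by rw [hx']; exact pair_ne_zero hli hne)
        rwa [hx'] at h1)
      (fun a b τ h hτ hne => by
        show _ ∈ Dir L
        have h1 := hFL _ h (hS a b) τ hτ (by rw [hx'']; exact pair_ne_zero hli hne)
        rwa [hx''] at h1)
      hs ht
  · obtain ⟨c, hc⟩ := dep_smul hq0 hli
    have hc0 : c ≠ 0 := by
      rintro rfl
      rw [zero_smul] at hc
      exact hq'.1 hc
    rcases lt_or_gt_of_ne hc0 with hc1 | hc1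
    · exfalso
      apply hqK'
      have : q' = (-c) • (-q) := by rw [hc, smul_neg, neg_smul, neg_neg]
      rw [this]
      exact (smul_mem_Dir (by linarith)).mpr hnq
    · have : s • q + t • q' = (s + t * c) • q := by
        rw [hc, smul_smul, add_smul]
      have hpos : 0 < s + t * c := by positivity
      rw [this, smul_mem_Dir hpos, smul_mem_Dir hpos]
      exact ⟨hqL, hqK⟩

end Pool.Agent.H19.SB
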