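import Pool.Agent.H19.SB.A1

/-!
# MP_bd4439_gt: modules A2 (thin case) and A3 (the cone `U`)
-/

namespace Pool.Agent.H19.SB

open Set Filter Topology
open scoped RealInnerProductSpace
open Pool.Agent.H63.SB

/-- planar combinatorics for A3. -/
theorem down_aux (DK : ℝ → ℝ → Prop) {α β : ℝ}
    (hKs : ∀ a b r : ℝ, 0 < r → DK a b → DK (r * a) (r * b))
    (hK0 : ¬ DK 0 0) (hK10 : DK 1 0) (hKn : DK 0 (-1)) (hK01 : ¬ DK 0 1)
    (hx : DK α β) (hxn : ¬ DK (-α) (-β))
    (hFK : ∀ a b τ : ℝ, DK a b → 0 ≤ τ → (a + τ * α ≠ 0 ∨ b + τ * β ≠ 0) →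
      DK (a + τ * α) (b + τ * β)) : DK 1 (-1) := by
  have hK0p : ∀ r : ℝ, 0 < r → ¬ DK 0 r := by
    intro r hr h
    have := hKs _ _ r⁻¹ (inv_pos.mpr hr) h
    rw [inv_mul_cancel₀ hr.ne', mul_zero] at this
    exact hK01 this
  have hfin : ∀ r : ℝ, 0 < r → DK r (-r) → DK 1 (-1) := by
    intro r hr h
    have := hKs _ _ r⁻¹ (inv_pos.mpr hr) h
    rwa [inv_mul_cancel₀ hr.ne', mul_neg, inv_mul_cancel₀ hr.ne'] at this
  have case1 : 0 < α + β → 0 < α → DK 1 (-1) := by
    intro h1 h2
    have h4 : 0 + 1 / (α + β) * α = α / (α + β) := by ring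
    have h5 : -1 + 1 / (α + β) * β = -(α / (α + β)) := by field_simp; ring
    have h3 := hFK 0 (-1) (1 / (α + β)) hKn (by positivity) (Or.inl (by rw [h4]; positivity))
    rw [h4, h5] at h3
    exact hfin _ (by positivity) h3
  have case2 : α + β < 0 → β < 0 → DK 1 (-1) := by
    intro h1 h2
    have h0 : α + β ≠ 0 := h1.ne
    have hp : 0 < β / (α + β) := div_pos_of_neg_of_neg h2 h1
    have h4 : 1 + -1 / (α + β) * α = β / (α + β) := by field_simp; ring
    have h5 : 0 + -1 / (α + β) * β = -(β / (α + β)) := by ring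
    have h3 := hFK 1 0 (-1 / (α + β)) hK10 (div_nonneg_of_nonpos (by norm_num) h1.le)
      (Or.inl (by rw [h4]; exact hp.ne'))
    rw [h4, h5] at h3
    exact hfin _ hp h3
  by_cases hα : 0 < α
  · rcases lt_trichotomy (α + β) 0 with h | h | h
    · exact case2 h (by linarith)
    · have : β = -α := by linarith
      rw [this] at hx
      exact hfin α hα hx
    · exact case1 h hα
  · push Not at hα
    by_cases hβ : β < 0
    · exact case2 (by linarith) hβ
    · exfalso
      push Not at hβ
      rcases hα.lt_or_eq with hα | hα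
      · have hα0 : α ≠ 0 := hα.ne
        rcases hβ.lt_or_eq with hβ | hβ
        · have h4 : 1 + -1 / α * α = 0 := by field_simp; ring
          have h6 : 0 < 0 + -1 / α * β := by
            rw [zero_add]
            exact mul_pos (div_pos_of_neg_of_neg (by norm_num) hα) hβ
          have h3 := hFK 1 0 (-1 / α) hK10 (div_nonneg_of_nonpos (by norm_num) hα.le)
            (Or.inr h6.ne')
          rw [h4] at h3
          exact hK0p _ h6 h3
        · apply hxn
          rw [← hβ, neg_zero]
          have := hKs 1 0 (-α) (by linarith) hK10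
          rwa [mul_one, mul_zero] at this
      · rw [hα] at hx
        rcases hβ.lt_or_eq with hβ | hβ
        · exact hK0p _ hβ hx
        · rw [← hβ] at hx
          exact hK0 hx

/-- **A2.** -/
theorem thin (hconv : ConvStmt) : ThinStmt := by
  intro E _ _ _ K L hCA ⟨q, hq, hqK⟩ hint
  have hK := hCA.hK
  have hL := hCA.hL
  have hqL : q ∈ Dir L := interior_subset hq
  have hq0 : q ≠ 0 := hqL.1
  have hnq : -q ∈ Dir K := hCA.neg q hq hqK
  let Y : Set E := Dir L \ Dir K
  let M : Submodule ℝ E := Submodule.span ℝ Y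
  have hqY : q ∈ Y := ⟨hqL, hqK⟩
  have hqM : q ∈ M := Submodule.subset_span hqY
  -- `M ≠ ⊤`
  have hM : M ≠ ⊤ := by
    intro hM
    obtain ⟨ε, hε, hball⟩ := Metric.isOpen_iff.mp isOpen_interior q hq
    let Z : Set E := Y ∩ Metric.ball q ε
    have hZc : Convex ℝ Z := by
      rw [convex_iff_forall_pos]
      intro u hu v hv a b ha hb hab
      refine ⟨?_, ?_⟩
      · have := hconv E K L hCA u (hball hu.2) hu.1.2 v hv.1.1 hv.1.2 a b ha hb
        exact this
      · exact (convex_ball q ε) hu.2 hv.2 ha.le hb.le hab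
    have hqZ : q ∈ Z := ⟨hqY, Metric.mem_ball_self hε⟩
    have hZY : ∀ y ∈ Y, y ∈ vectorSpan ℝ Z := by
      intro y hy
      have hy0 : y ≠ 0 := hy.1.1
      let δ : ℝ := ε / (2 * ‖y‖)
      have hδ : 0 < δ := by
        have : 0 < ‖y‖ := norm_pos_iff.mpr hy0
        positivity
      have h1 : q + δ • y ∈ Z := by
        refine ⟨?_, ?_⟩
        · have := hconv E K L hCA q hq hqK y hy.1 hy.2 1 δ one_pos hδ
          rwa [one_smul] at this
        · rw [Metric.mem_ball, dist_eq_norm, add_sub_cancel_left, norm_smul, Real.norm_eq_abs,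
            abs_of_pos hδ]
          have : 0 < ‖y‖ := norm_pos_iff.mpr hy0
          show ε / (2 * ‖y‖) * ‖y‖ < ε
          have : ε / (2 * ‖y‖) * ‖y‖ = ε / 2 := by field_simp
          rw [this]; linarith
      have h2 : (q + δ • y) -ᵥ q ∈ vectorSpan ℝ Z := vsub_mem_vectorSpan ℝ h1 hqZ
      rw [vsub_eq_sub, add_sub_cancel_left] at h2
      have h3 := Submodule.smul_mem _ δ⁻¹ h2
      rwa [smul_smul, inv_mul_cancel₀ hδ.ne', one_smul] at h3
    have hvs : vectorSpan ℝ Z = ⊤ := by
      rw [eq_top_iff, ← hM]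
      exact Submodule.span_le.mpr hZY
    have haff : affineSpan ℝ Z = ⊤ :=
      (AffineSubspace.affineSpan_eq_top_iff_vectorSpan_eq_top_of_nonempty ℝ E E ⟨q, hqZ⟩).mpr hvs
    have hne : (interior Z).Nonempty := hZc.interior_nonempty_iff_affineSpan_eq_top.mpr haff
    obtain ⟨z, hz⟩ := hne
    have : z ∈ interior (Dir L \ Dir K) := interior_mono inter_subset_left hz
    rw [hint] at this
    exact this
  -- every plane `span {q, v}` with `v ∉ M` has its centre on the line of `q`
  have hplane : ∀ v : E, v ∉ M → ∃ (x : E) (l : ℝ), Hom K L (Submodule.span ℝ {q, v}) x l ∧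
      x ∈ Submodule.span ℝ {q} := by
    intro v hv
    have hli : LinearIndependent ℝ ![q, v] := by
      by_contra hli
      obtain ⟨c, hc⟩ := dep_smul hq0 hli
      exact hv (hc ▸ M.smul_mem c hqM)
    have hqS : q ∈ Submodule.span ℝ {q, v} := Submodule.subset_span (by simp)
    obtain ⟨_, _, x, l, hhom⟩ := hCA.good q hq hqK _ (finrank_span_pair hli) hqS
    obtain ⟨hx0, hxK, hxn, hxL, hFK, hFL⟩ := plane_data hK hL hhom hqS hqL hqK
    refine ⟨x, l, hhom, ?_⟩
    obtain ⟨a, b, hab⟩ := Submodule.mem_span_pair.mp hhom.1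
    have hxM : x ∈ M := by
      have : -x ∈ M := Submodule.subset_span ⟨hxL, hxn⟩
      rwa [neg_mem_iff] at this
    have hb : b • v ∈ M := by
      have : b • v = x - a • q := by rw [← hab]; abel
      rw [this]
      exact M.sub_mem hxM (M.smul_mem a hqM)
    have hb0 : b = 0 := by
      by_contra hb0
      exact hv ((M.smul_mem_iff hb0).mp hb)
    rw [hb0, zero_smul, add_zero] at hab
    rw [← hab]
    exact Submodule.smul_mem _ _ (Submodule.mem_span_singleton_self q)
  -- a vector outside `M`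
  obtain ⟨v0, hv0⟩ : ∃ v0 : E, v0 ∉ M := by
    by_contra hcon
    push Not at hcon
    exact hM (eq_top_iff.mpr fun v _ => hcon v)
  obtain ⟨x0, l0, hh0, hx0⟩ := hplane v0 hv0
  have hle : ∀ v : E, Submodule.span ℝ {q} ≤ Submodule.span ℝ {q, v} := fun v =>
    Submodule.span_mono (by simp)
  have hline0 := hh0.mono (hle v0) hx0
  refine ⟨x0, l0, hom_top_of_dense hK hL ⟨-q, hnq⟩ ⟨q, hqL⟩ hh0.2.1 (A := (M : Set E)ᶜ) ?_ ?_⟩
  · rw [← interior_eq_empty_iff_dense_compl]
    by_contra hne
    exact hM (Submodule.eq_top_of_nonempty_interior' _ (Set.nonempty_iff_ne_empty.mpr hne))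
  · intro z hz
    obtain ⟨x, l, hh, hx⟩ := hplane z hz
    have hline := hh.mono (hle z) hx
    have huniq := Hom.unique hK hL hline hline0 (Or.inl ⟨-q, hnq,
      Submodule.neg_mem _ (Submodule.mem_span_singleton_self q)⟩)
    rw [← huniq.1, ← huniq.2]
    exact hh.2.2 z (Submodule.subset_span (by simp))

/-- **A3.** -/
theorem uc (hconv : ConvStmt) : UCStmt := by
  intro E _ _ _ K L hCA hne
  have hK := hCA.hK
  have hL := hCA.hL
  have hUL : ∀ q ∈ interior (Dir L \ Dir K), q ∈ interior (Dir L) := fun q hq =>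
    interior_mono Set.sdiff_subset hq
  have hUK : ∀ q ∈ interior (Dir L \ Dir K), q ∉ Dir K := fun q hq => (interior_subset hq).2
  -- basic `down`
  have hdown : ∀ p ∈ Dir K, ∀ q ∈ interior (Dir L \ Dir K), p - q ∈ Dir K := by
    intro p hp q hq
    have hqL : q ∈ Dir L := interior_subset (hUL q hq)
    have hqK := hUK q hq
    have hnq : -q ∈ Dir K := hCA.neg q (hUL q hq) hqK
    by_cases hli : LinearIndependent ℝ ![p, q]
    · have hpS : p ∈ Submodule.span ℝ {p, q} := Submodule.subset_span (by simp)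
      have hqS : q ∈ Submodule.span ℝ {p, q} := Submodule.subset_span (by simp)
      obtain ⟨_, _, x, l, hhom⟩ := hCA.good q (hUL q hq) hqK _ (finrank_span_pair hli) hqS
      obtain ⟨hx0, hxK, hxn, hxL, hFK, hFL⟩ := plane_data hK hL hhom hqS hqL hqK
      obtain ⟨α, β, hαβ⟩ := Submodule.mem_span_pair.mp hhom.1
      have hS : ∀ a b : ℝ, a • p + b • q ∈ Submodule.span ℝ {p, q} := fun a b =>
        Submodule.add_mem _ (Submodule.smul_mem _ _ hpS) (Submodule.smul_mem _ _ hqS)
      have hx' : ∀ a b τ : ℝ, a • p + b • q + τ • x = (a + τ * α) • p + (b + τ * β) • q := by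
        intro a b τ
        rw [← hαβ, smul_add, smul_smul, smul_smul, add_smul, add_smul]
        abel
      have hnx : (-α) • p + (-β) • q = -x := by
        rw [← hαβ, neg_smul, neg_smul, neg_add]
      have hmul : ∀ a b r : ℝ, (r * a) • p + (r * b) • q = r • (a • p + b • q) := by
        intro a b r
        rw [smul_add, smul_smul, smul_smul]
      have := down_aux (fun a b => a • p + b • q ∈ Dir K) (α := α) (β := β)
        (fun a b r hr h => by
          show _ ∈ Dir K
          rw [hmul]; exact (smul_mem_Dir hr).mpr h)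
        (by simpa using zero_notMem_Dir)
        (by simpa using hp) (by simpa using hnq) (by simpa using hqK)
        (by simpa [hαβ] using hxK) (by simpa only [hnx] using hxn)
        (fun a b τ h hτ hne => by
          show _ ∈ Dir K
          have h1 := hFK _ h (hS a b) τ hτ (by rw [hx']; exact pair_ne_zero hli hne)
          rwa [hx'] at h1)
      simpa [sub_eq_add_neg] using this
    · obtain ⟨c, hc⟩ := dep_smul hp.1 hli
      have hc0 : c ≠ 0 := by
        rintro rfl
        rw [zero_smul] at hc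
        exact hqL.1 hc
      rcases lt_or_gt_of_ne hc0 with hc1 | hc1
      · have : p - q = (1 - c) • p := by rw [hc, sub_smul, one_smul]
        rw [this]
        exact (smul_mem_Dir (by linarith)).mpr hp
      · exfalso
        apply hqK
        rw [hc]
        exact (smul_mem_Dir hc1).mpr hp
  have hdown' : ∀ p ∈ Dir K, ∀ q ∈ interior (Dir L \ Dir K), ∀ t : ℝ, 0 < t →
      p - t • q ∈ Dir K := by
    intro p hp q hq t ht
    have h1 := hdown (t⁻¹ • p) ((smul_mem_Dir (inv_pos.mpr ht)).mpr hp) q hq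
    have h2 := (smul_mem_Dir (K := K) ht).mpr h1
    rwa [smul_sub, smul_smul, mul_inv_cancel₀ ht.ne', one_smul] at h2
  refine { toCA := hCA, nonempty := hne, add := ?_, neg_mem := ?_, down := ?_ }
  · intro q hq q' hq' hqK' t ht
    rw [mem_interior]
    refine ⟨(fun v : E => q' + t • v) '' interior (Dir L \ Dir K), ?_, ?_, ⟨q, hq, rfl⟩⟩
    · rintro _ ⟨v, hv, rfl⟩
      have := hconv E K L hCA v (hUL v hv) (hUK v hv) q' hq' hqK' t 1 ht one_pos
      rw [one_smul, add_comm] at this
      exact this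
    · have h1 : (fun v : E => q' + t • v) =
          (Homeomorph.addLeft q') ∘ (Homeomorph.smulOfNeZero t ht.ne') := by
        ext v; simp
      rw [h1, Set.image_comp]
      exact (Homeomorph.addLeft q').isOpenMap _
        ((Homeomorph.smulOfNeZero t ht.ne').isOpenMap _ isOpen_interior)
  · intro q hq
    rw [mem_interior]
    refine ⟨(fun v : E => -v) '' interior (Dir L \ Dir K), ?_, ?_, ⟨q, hq, rfl⟩⟩
    · rintro _ ⟨v, hv, rfl⟩
      exact hCA.neg v (hUL v hv) (hUK v hv)
    · exact (Homeomorph.neg E).isOpenMap _ isOpen_interior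
  · intro p hp q hq t ht
    rw [mem_interior]
    refine ⟨(fun v : E => p + (-t) • v) '' interior (Dir L \ Dir K), ?_, ?_,
      ⟨q, hq, by simp [sub_eq_add_neg]⟩⟩
    · rintro _ ⟨v, hv, rfl⟩
      have := hdown' p hp v hv t ht
      simpa [sub_eq_add_neg] using this
    · have ht' : (-t) ≠ 0 := by linarith
      have h1 : (fun v : E => p + (-t) • v) =
          (Homeomorph.addLeft p) ∘ (Homeomorph.smulOfNeZero (-t) ht') := by
        ext v; simp
      rw [h1, Set.image_comp]
      exact (Homeomorph.addLeft p).isOpenMap _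
        ((Homeomorph.smulOfNeZero (-t) ht').isOpenMap _ isOpen_interior)

end Pool.Agent.H19.SB
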